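import Pool.Agent.Lib.MP_9a7af0_lc.Final

/-!
Finding a proportionally dense subgraph (or a connected one) of maximum size is NP-hard on graphs
of maximum degree 3, on graphs of h-index 3, and, for every `D ≥ 3`, on graphs whose complement
has maximum degree `D` and on graphs whose complement has h-index `D`.
-/

namespace Pool.Agent.Results.MP_9a7af0_lc.NPHardAll

open Pool.Agent.Lib.MP_9a7af0_lc

theorem result :
    (NPHardOn (fun G => MaxDegree G 3) HasPDS ∧ NPHardOn (fun G => MaxDegree G 3) HasConnPDS) ∧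
    (NPHardOn (fun G => HIndex G 3) HasPDS ∧ NPHardOn (fun G => HIndex G 3) HasConnPDS) ∧
    (∀ D : ℕ, 3 ≤ D → NPHardOn (fun G => MaxDegree Gᶜ D) HasPDS ∧
      NPHardOn (fun G => MaxDegree Gᶜ D) HasConnPDS) ∧
    (∀ D : ℕ, 3 ≤ D → NPHardOn (fun G => HIndex Gᶜ D) HasPDS ∧
      NPHardOn (fun G => HIndex Gᶜ D) HasConnPDS) :=
  ⟨hard_maxDegree_three, hard_hIndex_three, fun _ h => hard_maxDegree_compl h,
    fun _ h => hard_hIndex_compl h⟩

end Pool.Agent.Results.MP_9a7af0_lc.NPHardAll
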